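import Pool.Agent.X123.MT.Dim
import Pool.Agent.Y728.AK.Final

/-!
# The distance of the points to almost every target in terms of their radicals

Let `K` be a number field. The points `P = (a : b : c)` with `a + b + c = 0` and `abc ≠ 0` are the
points `(x : 1 - x : -1)`, `x ∈ K`, `x ≠ 0, 1`. We consider the proximity `λ(y, x)` of `x` to a tuple
`y` of targets in completions of `K` and compare it with the radical of `P`. For almost all `y` we
have `λ(y, x) ≤ (2 / 3 + ε) rad(P) + C` for all `x`, of whatever height, and if `h(P) ≥ M rad(P)` with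
a fixed `M > 1 / 3`, then `2 / 3 + ε` can be replaced by a number smaller than `2 / 3`. The exceptional
sets of targets have small Hausdorff dimension.
-/

set_option autoImplicit false

namespace Pool.Agent.Results.MP_a793bb_nt.RadicalAndTargets

open NumberField IsDedekindDomain MeasureTheory

section

variable {K : Type} [Field K] [NumberField K]

/-- the height `h(P)` of the point `P` with coordinates `x` -/
noncomputable def height (x : Fin 3 → K) : ℝ :=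
  (∑ w : InfinitePlace K, (w.mult : ℝ) * Real.log (max (w (x 0)) (max (w (x 1)) (w (x 2)))) +
    ∑ᶠ v : HeightOneSpectrum (𝓞 K), Real.log
      (max (FinitePlace.mk v (x 0)) (max (FinitePlace.mk v (x 1)) (FinitePlace.mk v (x 2))))) /
    (Module.finrank ℚ K : ℝ)

/-- the radical of the point `P` with coordinates `x`, without the primes of `T`: the sum of
`log N(v) / d` over the primes `v ∉ T` at which the valuations of the coordinates are not all
equal -/
noncomputable def rad (T : Set (HeightOneSpectrum (𝓞 K))) (x : Fin 3 → K) : ℝ :=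
  (∑ᶠ (v : HeightOneSpectrum (𝓞 K)) (_ : v ∉ T ∧
      ¬ (FinitePlace.mk v (x 0) = FinitePlace.mk v (x 1) ∧
        FinitePlace.mk v (x 1) = FinitePlace.mk v (x 2))),
    Real.log (Ideal.absNorm v.asIdeal : ℝ)) / (Module.finrank ℚ K : ℝ)

/-- the coordinates of the point `(x : 1 - x : -1)` -/
def pt (x : K) : Fin 3 → K := ![x, 1 - x, -1]

/-- closed balls of radius `r ≤ 1` have measure at most `C r ^ n` -/
def Balls {F : Type} [MetricSpace F] [MeasurableSpace F] (μ : Measure F) (n : ℝ) : Prop :=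
  ∃ C : ℝ, ∀ (a : F) (r : ℝ), 0 < r → r ≤ 1 →
    μ (Metric.closedBall a r) ≤ ENNReal.ofReal (C * r ^ n)

open Classical in
/-- the proximity of `x` to the point `y` of `K ⊗ ℝ = ℝ ^ (r₁) × ℂ ^ (r₂)` at all archimedean places:
`1 / [K : ℚ]` times the sum of the `[K_v : ℝ] log⁺ (1 / |y_v - x|_v)` -/
noncomputable def lamInf (y : mixedEmbedding.mixedSpace K) (x : K) : ℝ :=
  (∑ w, max 0 (Real.log (1 / |y.1 w - (mixedEmbedding K x).1 w|)) +
    ∑ w, 2 * max 0 (Real.log (1 / ‖y.2 w - (mixedEmbedding K x).2 w‖))) /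
      (Module.finrank ℚ K : ℝ)

/-- The assertion on the proximity `Λ x` of the points `x` to the targets: `θ M < 2 / 3` is the
factor of the radical for the points with `h ≥ M rad`. -/
def Holds (T : Set (HeightOneSpectrum (𝓞 K))) (θ : ℝ → ℝ) (Λ : K → ℝ) : Prop :=
  (∀ ε : ℝ, 0 < ε → ∃ C : ℝ, ∀ x : K, x ≠ 0 → x ≠ 1 →
    Λ x ≤ (2 / 3 + ε) * rad T (pt x) + C) ∧
  ∀ M : ℝ, 1 / 3 < M → ∃ C : ℝ, ∀ x : K, x ≠ 0 → x ≠ 1 → M * rad T (pt x) ≤ height (pt x) →
    Λ x ≤ θ M * rad T (pt x) + C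

theorem pt_ne (x : K) : pt x ≠ 0 := by
  intro h
  have h1 := congrFun h 2
  simp [pt] at h1

theorem pt_sum (x : K) : pt x 0 + pt x 1 + pt x 2 = 0 := by
  simp [pt]

theorem pt_prod {x : K} (h0 : x ≠ 0) (h1 : x ≠ 1) : pt x 0 * pt x 1 * pt x 2 ≠ 0 := by
  have : 1 - x ≠ 0 := sub_ne_zero.2 (Ne.symm h1)
  simp [pt, h0, this]

theorem mk_inj {x x' : K} (h : Projectivization.mk K (pt x) (pt_ne x) =
    Projectivization.mk K (pt x') (pt_ne x')) : x = x' := by
  rw [Projectivization.mk_eq_mk_iff'] at h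
  obtain ⟨a, ha⟩ := h
  have h2 := congrFun ha 2
  have h0 := congrFun ha 0
  simp only [pt, Pi.smul_apply, smul_eq_mul, Matrix.cons_val] at h2 h0
  have ha1 : a = 1 := by
    have : a * (-1) = -1 := h2
    linear_combination -this
  rw [ha1, one_mul] at h0
  exact h0.symm

theorem rad_nonneg (T : Set (HeightOneSpectrum (𝓞 K))) (x : Fin 3 → K) : 0 ≤ rad T x := by
  unfold rad
  refine div_nonneg ?_ (Nat.cast_nonneg _)
  refine finsum_nonneg fun v => finsum_nonneg fun _ => Real.log_nonneg ?_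
  have h1 : 0 < Ideal.absNorm v.asIdeal := Nat.pos_of_ne_zero fun h => by
    rw [Ideal.absNorm_eq_zero_iff] at h
    exact v.ne_bot h
  exact_mod_cast h1

open Pool.Agent.X123.MT in
theorem cnt_all (T : Set (HeightOneSpectrum (𝓞 K))) (hT : T.Finite) :
    Cnt {x : K | x ≠ 0 ∧ x ≠ 1} (fun x => rad T (pt x)) ((Module.finrank ℚ K : ℝ) * (2 / 3)) := by
  intro δ hδ
  obtain ⟨C, hC⟩ := Pool.Agent.Y728.radical_count K T hT δ hδ
  refine ⟨C, fun t ht => ?_⟩
  have h1 := hC (Real.exp t) (Real.one_le_exp ht)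
  have hmaps : Set.MapsTo (fun x : K => Projectivization.mk K (pt x) (pt_ne x))
      {x | x ∈ {x : K | x ≠ 0 ∧ x ≠ 1} ∧ rad T (pt x) ≤ t}
      (Pool.Agent.Y728.PointsT T (Real.exp t)) := by
    rintro x ⟨⟨hx0, hx1⟩, hx2⟩
    exact ⟨pt x, pt_ne x, rfl, pt_sum x, pt_prod hx0 hx1, Real.exp_le_exp.2 hx2⟩
  have hinj : Set.InjOn (fun x : K => Projectivization.mk K (pt x) (pt_ne x))
      {x | x ∈ {x : K | x ≠ 0 ∧ x ≠ 1} ∧ rad T (pt x) ≤ t} := fun x _ x' _ h => mk_inj h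
  refine ⟨Set.Finite.of_injOn hmaps hinj h1.1, ?_⟩
  have h2 := Set.ncard_le_ncard_of_injOn _ hmaps hinj h1.1
  rw [← Real.exp_mul] at h1
  refine le_trans (by exact_mod_cast h2) (h1.2.trans (le_of_eq ?_))
  rw [mul_comm t]

open Pool.Agent.X123.MT in
theorem cnt_large (T : Set (HeightOneSpectrum (𝓞 K))) (hT : T.Finite) {M : ℝ} (hM : 1 / 3 < M) :
    ∃ e : ℝ, 0 ≤ e ∧ e < 2 / 3 ∧
      Cnt {x : K | x ≠ 0 ∧ x ≠ 1 ∧ M * rad T (pt x) ≤ height (pt x)} (fun x => rad T (pt x))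
        ((Module.finrank ℚ K : ℝ) * e) := by
  have hd : (0 : ℝ) < (Module.finrank ℚ K : ℝ) := by exact_mod_cast Module.finrank_pos
  obtain ⟨ν, C, hν, hC, hmain⟩ := Pool.Agent.Y728.AK.exc_count K
    (Pool.Agent.Y728.AK.almost_allK K) T hT hM
  obtain ⟨d, hdd⟩ : ∃ d : ℝ, d = (Module.finrank ℚ K : ℝ) := ⟨_, rfl⟩
  rw [← hdd] at hd hmain ⊢
  refine ⟨max 0 (2 / 3 - ν / d), le_max_left _ _, max_lt (by norm_num) (by
    have : 0 < ν / d := by positivity
    linarith), fun δ hδ => ⟨C, fun t ht => ?_⟩⟩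
  have h1 := hmain (Real.exp t) (Real.one_le_exp ht)
  obtain ⟨C', hC'⟩ := Pool.Agent.Y728.radical_count K T hT 1 one_pos
  have hfin0 := (hC' (Real.exp t) (Real.one_le_exp ht)).1
  have hfin : (Pool.Agent.Y728.AK.ExcT T M (Real.exp t)).Finite := hfin0.subset (by
    rintro P ⟨x, hx, h1, h2, h3, h4, -⟩
    exact ⟨x, hx, h1, h2, h3, h4⟩)
  have hmaps : Set.MapsTo (fun x : K => Projectivization.mk K (pt x) (pt_ne x))
      {x | x ∈ {x : K | x ≠ 0 ∧ x ≠ 1 ∧ M * rad T (pt x) ≤ height (pt x)} ∧ rad T (pt x) ≤ t}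
      (Pool.Agent.Y728.AK.ExcT T M (Real.exp t)) := by
    rintro x ⟨⟨hx0, hx1, hx3⟩, hx2⟩
    exact ⟨pt x, pt_ne x, rfl, pt_sum x, pt_prod hx0 hx1, Real.exp_le_exp.2 hx2, hx3⟩
  have hinj : Set.InjOn (fun x : K => Projectivization.mk K (pt x) (pt_ne x))
      {x | x ∈ {x : K | x ≠ 0 ∧ x ≠ 1 ∧ M * rad T (pt x) ≤ height (pt x)} ∧
        rad T (pt x) ≤ t} := fun x _ x' _ h => mk_inj h
  refine ⟨Set.Finite.of_injOn hmaps hinj hfin, ?_⟩
  have h2 := Set.ncard_le_ncard_of_injOn _ hmaps hinj hfin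
  refine le_trans (by exact_mod_cast h2) (h1.trans ?_)
  apply mul_le_mul_of_nonneg_left _ hC.le
  rw [← Real.exp_mul]
  apply Real.exp_le_exp.2
  rw [mul_comm t]
  apply mul_le_mul_of_nonneg_right _ ht
  have h3 : d * (2 / 3) - ν = d * (2 / 3 - ν / d) := by field_simp
  rw [h3]
  have h4 : d * (2 / 3 - ν / d) ≤ d * max 0 (2 / 3 - ν / d) :=
    mul_le_mul_of_nonneg_left (le_max_right _ _) hd.le
  linarith

theorem exists_exp (T : Set (HeightOneSpectrum (𝓞 K))) (hT : T.Finite) :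
    ∃ (e : ℚ → ℝ), ∀ r : ℚ, 1 / 3 < (r : ℝ) → 0 ≤ e r ∧ e r < 2 / 3 ∧
      Pool.Agent.X123.MT.Cnt {x : K | x ≠ 0 ∧ x ≠ 1 ∧ r * rad T (pt x) ≤ height (pt x)}
        (fun x => rad T (pt x)) ((Module.finrank ℚ K : ℝ) * e r) := by
  have h : ∀ r : ℚ, ∃ e : ℝ, 1 / 3 < (r : ℝ) → 0 ≤ e ∧ e < 2 / 3 ∧
      Pool.Agent.X123.MT.Cnt {x : K | x ≠ 0 ∧ x ≠ 1 ∧ r * rad T (pt x) ≤ height (pt x)}
        (fun x => rad T (pt x)) ((Module.finrank ℚ K : ℝ) * e) := by
    intro r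
    by_cases hr : 1 / 3 < (r : ℝ)
    · obtain ⟨e, he⟩ := cnt_large T hT hr
      exact ⟨e, fun _ => he⟩
    · exact ⟨0, fun h => absurd h hr⟩
  choose e he using h
  exact ⟨e, he⟩

open Pool.Agent.X123.MT in
theorem holds_of_generic {T : Set (HeightOneSpectrum (𝓞 K))} (hT : T.Finite) {e : ℚ → ℝ}
    (he : ∀ r : ℚ, 1 / 3 < (r : ℝ) → 0 ≤ e r ∧ e r < 2 / 3 ∧
      Pool.Agent.X123.MT.Cnt {x : K | x ≠ 0 ∧ x ≠ 1 ∧ r * rad T (pt x) ≤ height (pt x)}
        (fun x => rad T (pt x)) ((Module.finrank ℚ K : ℝ) * e r))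
    {r : ℝ → ℚ} (hr : ∀ M : ℝ, 1 / 3 < M → 1 / 3 < (r M : ℝ) ∧ (r M : ℝ) < M)
    {Y : Type*} [MeasurableSpace Y] {μ : Measure Y} {L : K → Y → ℝ} (hL : Generic μ L) :
    ∀ᵐ y ∂μ, Holds T (fun M => (e (r M) + 2 / 3) / 2)
      (fun x => L x y / (Module.finrank ℚ K : ℝ)) := by
  have hd : (0 : ℝ) < (Module.finrank ℚ K : ℝ) := by exact_mod_cast Module.finrank_pos
  have H1 := hL _ _ _ (fun x _ => rad_nonneg T (pt x)) (by positivity) (cnt_all T hT)
  have H2 : ∀ᵐ y ∂μ, ∀ s : ℚ, 1 / 3 < (s : ℝ) → ∀ ε : ℝ, 0 < ε → ∃ C : ℝ,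
      ∀ x ∈ {x : K | x ≠ 0 ∧ x ≠ 1 ∧ s * rad T (pt x) ≤ height (pt x)},
        L x y ≤ ((Module.finrank ℚ K : ℝ) * e s + ε) * rad T (pt x) + C := by
    rw [ae_all_iff]
    intro s
    by_cases hs : 1 / 3 < (s : ℝ)
    · obtain ⟨h1, h2, h3⟩ := he s hs
      have h4 := hL _ _ _ (fun x _ => rad_nonneg T (pt x)) (by positivity) h3
      filter_upwards [h4] with y hy _ using hy
    · exact Filter.Eventually.of_forall fun y h => absurd h hs
  filter_upwards [H1, H2] with y h1 h2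
  refine ⟨fun ε hε => ?_, fun M hM => ?_⟩
  · obtain ⟨C, hC⟩ := h1 ((Module.finrank ℚ K : ℝ) * ε) (by positivity)
    refine ⟨C / (Module.finrank ℚ K : ℝ), fun x hx0 hx1 => ?_⟩
    have h3 := hC x ⟨hx0, hx1⟩
    rw [div_le_iff₀ hd]
    refine h3.trans (le_of_eq ?_)
    field_simp
  · obtain ⟨hr1, hr2⟩ := hr M hM
    obtain ⟨he0, he1, -⟩ := he (r M) hr1
    obtain ⟨C, hC⟩ := h2 (r M) hr1 ((Module.finrank ℚ K : ℝ) * ((2 / 3 - e (r M)) / 2))
      (mul_pos hd (by linarith))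
    refine ⟨C / (Module.finrank ℚ K : ℝ), fun x hx0 hx1 hx2 => ?_⟩
    have h3 := hC x ⟨hx0, hx1, (mul_le_mul_of_nonneg_right hr2.le (rad_nonneg T (pt x))).trans hx2⟩
    rw [div_le_iff₀ hd]
    refine h3.trans (le_of_eq ?_)
    field_simp
    ring

end

open Classical in
/-- Let `K` be a number field of degree `d` and `T` a finite set of primes of `K`. There is a function
`θ` with `θ M < 2 / 3` for all `M > 1 / 3` and with the following properties. The points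
`P = (x : 1 - x : -1)`, `x ∈ K`, `x ≠ 0, 1`, are all points `(a : b : c)` over `K` with `a + b + c = 0`
and `abc ≠ 0`.

(1) Let `F_i` (`i` in a finite set) be metric spaces with `σ`-finite Borel measures `μ_i` whose balls
of radius `r ≤ 1` have measure at most `C r ^ (n_i)`, and `σ_i : K → F_i` arbitrary maps; for instance
completions `F_i = K_v`, `n_i = [K_v : ℚ_v]`. Put `λ(y, x) = ∑ n_i log⁺ (1 / |y_i - σ_i(x)|) / d`. For
almost all `y` in the product of the `F_i` no `y_i` is in the image of `K`, for all `ε > 0` there is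
`C` with `λ(y, x) ≤ (2 / 3 + ε) rad_T(P) + C` for all `x`, and for all `M > 1 / 3` there is `C` with
`λ(y, x) ≤ θ(M) rad_T(P) + C` for all `x` with `h(P) ≥ M rad_T(P)`.

(2) The same holds for almost all `y` in `K ⊗ ℝ`, with all archimedean places.

(3) For every map `σ` of `K` to a metric space (for instance `K ⊗ ℝ` with the maximum norm) and every
`τ > 0` the points `y` with infinitely many `x` such that `|y - σ(x)| ≤ exp (- τ rad_T(P))` form a
set of Hausdorff dimension at most `2 d / (3 τ)`, and those with infinitely many such `x` with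
`h(P) ≥ M rad_T(P)` a set of dimension at most `d θ(M) / τ`. -/
theorem result (K : Type) [Field K] [NumberField K] (T : Set (HeightOneSpectrum (𝓞 K)))
    (hT : T.Finite) : ∃ θ : ℝ → ℝ, (∀ M : ℝ, 1 / 3 < M → θ M < 2 / 3) ∧
    (∀ (ι : Type) [Fintype ι] (F : ι → Type) [∀ i, MetricSpace (F i)]
      [∀ i, MeasurableSpace (F i)] [∀ i, BorelSpace (F i)] (μ : ∀ i, Measure (F i))
      [∀ i, SigmaFinite (μ i)] (n : ι → ℝ) (σ : ∀ i, K → F i), (∀ i, 0 < n i) →
      (∀ i, Balls (μ i) (n i)) →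
      ∀ᵐ y ∂(Measure.pi μ), (∀ i x, y i ≠ σ i x) ∧
        Holds T θ (fun x => (∑ i, n i * max 0 (Real.log (1 / dist (y i) (σ i x)))) /
          (Module.finrank ℚ K : ℝ))) ∧
    (∀ᵐ y : mixedEmbedding.mixedSpace K, Holds T θ (fun x => lamInf y x)) ∧
    ∀ (X : Type) [MetricSpace X] (σ : K → X) (τ : ℝ), 0 < τ →
      dimH {y : X | {x : K | (x ≠ 0 ∧ x ≠ 1) ∧
        dist y (σ x) ≤ Real.exp (-(τ * rad T (pt x)))}.Infinite} ≤
          ENNReal.ofReal ((Module.finrank ℚ K : ℝ) * (2 / 3) / τ) ∧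
      ∀ M : ℝ, 1 / 3 < M →
        dimH {y : X | {x : K | (x ≠ 0 ∧ x ≠ 1 ∧ M * rad T (pt x) ≤ height (pt x)) ∧
          dist y (σ x) ≤ Real.exp (-(τ * rad T (pt x)))}.Infinite} ≤
            ENNReal.ofReal ((Module.finrank ℚ K : ℝ) * θ M / τ) := by
  have := Pool.Agent.X123.MT.countable_K K
  have hd : (0 : ℝ) < (Module.finrank ℚ K : ℝ) := by exact_mod_cast Module.finrank_pos
  obtain ⟨e, he⟩ := exists_exp T hT
  have hr : ∀ M : ℝ, ∃ r : ℚ, 1 / 3 < M → 1 / 3 < (r : ℝ) ∧ (r : ℝ) < M := by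
    intro M
    by_cases hM : 1 / 3 < M
    · obtain ⟨r, hr⟩ := exists_rat_btwn hM
      exact ⟨r, fun _ => hr⟩
    · exact ⟨0, fun h => absurd h hM⟩
  choose r hr using hr
  refine ⟨fun M => (e (r M) + 2 / 3) / 2, fun M hM => ?_, fun ι _ F _ _ _ μ _ n σ hn hμ => ?_, ?_,
    fun X _ σ τ hτ => ⟨?_, fun M hM => ?_⟩⟩
  · have := (he (r M) (hr M hM).1).2.1
    show (e (r M) + 2 / 3) / 2 < 2 / 3
    linarith
  · have h1 := Pool.Agent.X123.MT.ae_ne μ hn hμ σ
    have h2 := holds_of_generic hT he hr (Pool.Agent.X123.MT.generic_pi μ hn hμ σ)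
    filter_upwards [h1, h2] with y h1 h2
    exact ⟨h1, h2⟩
  · exact holds_of_generic hT he hr (Pool.Agent.X123.MT.generic_mixed K)
  · exact Pool.Agent.X123.MT.dim_le _ _ (fun x _ => rad_nonneg T (pt x)) (by positivity) hτ
      (cnt_all T hT) σ
  · obtain ⟨hr1, hr2⟩ := hr M hM
    obtain ⟨he0, he1, he2⟩ := he (r M) hr1
    have h1 := Pool.Agent.X123.MT.dim_le _ _ (fun x _ => rad_nonneg T (pt x)) (by positivity) hτ
      he2 σ
    refine le_trans (dimH_mono ?_) (h1.trans (ENNReal.ofReal_le_ofReal ?_))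
    · intro y hy
      refine Set.Infinite.mono ?_ hy
      rintro x ⟨⟨hx0, hx1, hx2⟩, hx3⟩
      exact ⟨⟨hx0, hx1, (mul_le_mul_of_nonneg_right hr2.le (rad_nonneg T (pt x))).trans hx2⟩, hx3⟩
    · apply div_le_div_of_nonneg_right _ hτ.le
      apply mul_le_mul_of_nonneg_left _ hd.le
      linarith

end Pool.Agent.Results.MP_a793bb_nt.RadicalAndTargets
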