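import Mathlib
import Pool.Agent.X4.KA.Main

/-!
# The abc conjecture over number fields is sharp for every shape of the radical

For a point `P = (x : 1 - x : -1)` of the line `a + b + c = 0` the radical is the sum of three parts:
the part of the `i`-th coordinate is the contribution of the primes at which the valuation of the
`i`-th coordinate is larger than that of some other coordinate (the primes of the numerator of `x`, of
the numerator of `1 - x` and of the denominator of `x`). The abc conjecture over `K` says that for
`α₀ + α₁ + α₂ < 1` only finitely many points have `part i P ≤ α i * height P` for `i = 0, 1, 2`. We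
prove that for `α₀ + α₁ + α₂ > 1` there are at least `c * X ^ (d * (α₀ + α₁ + α₂ - 1))` such points of
height at most `log X` over every number field `K` of degree `d`, which is the expected number of them
up to the constant, near any given point at the infinite places, and in any given residue class.

The points come from the lattices of the pairs `(a, b)` of integers of `K` for which `a`, `b - a`, `b`
are divisible by powers of three rational primes. The subspace theorem, applied to all `ℚ`-subspaces
of `K ^ 2`, shows that these lattices have no short vectors; the lattice vectors with large content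
are few.
-/

set_option autoImplicit false

namespace Pool.Agent.Results.MP_a793bb_nt.RadicalShapes

open NumberField IsDedekindDomain Module

variable {K : Type} [Field K] [NumberField K]

/-- The point `(x : 1 - x : -1)`. -/
def point (x : K) : Fin 3 → K := ![x, 1 - x, -1]

/-- The height `h(P)` of the problem: Mathlib's logarithmic height divided by the degree. -/
noncomputable def height (P : Fin 3 → K) : ℝ := Height.logHeight P / finrank ℚ K

open Classical in
/-- The radical `rad(P)` of the problem: the sum of `log N(v)`, divided by the degree, over the primes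
`v` at which the three valuations are not all equal. -/
noncomputable def radical (P : Fin 3 → K) : ℝ :=
  (∑ᶠ v : HeightOneSpectrum (𝓞 K),
    if ¬ (v.valuation K (P 0) = v.valuation K (P 1) ∧ v.valuation K (P 1) = v.valuation K (P 2))
      then Real.log (Ideal.absNorm v.asIdeal) else 0) / finrank ℚ K

open Classical in
/-- The part of the radical which comes from the coordinate `i`: the sum of `log N(v)`, divided by
the degree, over the primes `v` with `|P i|_v < |P j|_v` for some `j`. -/
noncomputable def part (i : Fin 3) (P : Fin 3 → K) : ℝ :=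
  (∑ᶠ v : HeightOneSpectrum (𝓞 K),
    if ∃ j, v.valuation K (P i) < v.valuation K (P j)
      then Real.log (Ideal.absNorm v.asIdeal) else 0) / finrank ℚ K

/-- **Main theorem.** Let `K` be a number field of degree `d`.

(A) For `x ≠ 0, 1` the radical of the point `(x : 1 - x : -1)` is the sum of its three parts.

(B) Let `α₀, α₁, α₂ ∈ (0, 1]` with `α₀ + α₁ + α₂ > 1`, let `t ∈ K` be different from `0` and `1`, let
`r` be an integer of `K` and `m ≥ 1`, and let `ε > 0` and `T` be real numbers. There is `c > 0` such
that for all large `X` there are at least `c * X ^ (d * (α₀ + α₁ + α₂ - 1))` elements `x` of `K`,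
`x ≠ 0, 1`, such that `P = (x : 1 - x : -1)` has height at most `log X` and
`part i P ≤ α i * height P - T` for `i = 0, 1, 2`, and such that `|σ x - σ t| < ε` for all embeddings
`σ` of `K` in `ℂ`, and `x ≡ r` modulo `m`, that is, `x = a / b` with integers `a ≡ r`, `b ≡ 1`
modulo `m`. -/
theorem result (K : Type) [Field K] [NumberField K] :
    (∀ x : K, x ≠ 0 → x ≠ 1 →
      radical (point x) = part 0 (point x) + part 1 (point x) + part 2 (point x)) ∧
    ∀ (α : Fin 3 → ℝ) (_ : ∀ i, 0 < α i) (_ : ∀ i, α i ≤ 1) (_ : 1 < ∑ i, α i)
      (t : K) (_ : t ≠ 0) (_ : t ≠ 1) (r : 𝓞 K) (m : ℕ) (_ : 0 < m) (ε : ℝ) (_ : 0 < ε) (T : ℝ),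
      ∃ c X₀ : ℝ, 0 < c ∧ ∀ X : ℝ, X₀ ≤ X → ∃ F : Finset K,
        (∀ x ∈ F, x ≠ 0 ∧ x ≠ 1 ∧ height (point x) ≤ Real.log X ∧
          (∀ i, part i (point x) ≤ α i * height (point x) - T) ∧
          (∀ σ : K →+* ℂ, ‖σ x - σ t‖ < ε) ∧
          ∃ a b : 𝓞 K, b ≠ 0 ∧ x = (a : K) / b ∧ (m : 𝓞 K) ∣ a - r ∧ (m : 𝓞 K) ∣ b - 1) ∧
        c * X ^ ((finrank ℚ K : ℝ) * (∑ i, α i - 1)) ≤ (F.card : ℝ) := by
  refine ⟨fun x hx0 hx1 => Pool.Agent.X4.KA.rad_eq hx0 hx1, ?_⟩
  intro α hα0 hα1 hs t ht0 ht1 r m hm ε hε T
  exact Pool.Agent.X4.KA.core K α hα0 hα1 hs t ht0 ht1 r m hm ε hε T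

end Pool.Agent.Results.MP_a793bb_nt.RadicalShapes
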