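import Pool.Agent.Results.MP_a793bb_nt.AllThinSetsAtOnce
import Pool.Agent.Y854.GM.Win

/-!
# The abc inequality for ALL points whose radical has its norm in windows around thin sequences, over number fields

Let `K` be a number field of degree `d`, `D ≥ 1`, `q ≥ 3` and `M > D / q` (for the line `a + b + c = 0` itself `D = 1`,
`q = 3`, and `M = 1` is the abc inequality). There is `ν > 0` such that for every sequence `v ≥ 1` of exponent of
convergence at most `τ` (for `v_i = i ^ a` this is `1 / a`, for `v_i = b ^ i` it is `0`) and `ρ < 1` there is ONE set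
`E ⊂ ℝ` of Hausdorff dimension at most `(2 / q - ν + τ) / (1 - ρ)` such that for each `α > 0` outside `E`, each finite set
`T` of primes of `K`, each map `P` of degree `D` of the projective line to the line `a + b + c = 0` with `q` points over the
points with `abc = 0` and each real `c`, for all but finitely many `i`: ALL points `x = P(t)`, `t ∈ ℙ¹(K)`, with nonzero
coordinates such that the norm `exp(d rad_T(x))` of the radical (the product of the norms of the primes outside `T`
dividing it) differs by at most `v_i ^ ρ` from `α v_i` satisfy `h(x) < M rad_T(x) + c`, of whatever height they are.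

The number of exceptions is from the starting result `AllThinSetsAtOnce`.
-/

set_option autoImplicit false

open NumberField IsDedekindDomain Polynomial

namespace Pool.Agent.Results.MP_a793bb_nt.RadicalsInWindows

open AllThinSetsAtOnce (zeros rad height coordinates Data Exceptions)

/-- the exponent of convergence of the sequence `v` is at most `τ` -/
def ExpLe (v : ℕ → ℝ) (τ : ℝ) : Prop := ∀ t : ℝ, τ < t → Summable (fun n : ℕ => (v n) ^ (-t))

section aux

variable {K : Type} [Field K] [NumberField K]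

lemma rad_smul (T : Set (HeightOneSpectrum (𝓞 K))) (l : K) (hl : l ≠ 0) (x : Fin 3 → K) :
    rad T (l • x) = rad T x := by
  unfold AllThinSetsAtOnce.rad
  congr 1
  apply finsum_congr
  intro v
  have h : (v ∈ {v : HeightOneSpectrum (𝓞 K) | v ∉ T ∧ ∃ i j, v.valuation K ((l • x) i) ≠ v.valuation K ((l • x) j)}) ↔
      (v ∈ {v : HeightOneSpectrum (𝓞 K) | v ∉ T ∧ ∃ i j, v.valuation K (x i) ≠ v.valuation K (x j)}) := by
    simp only [Set.mem_ofPred_eq, Pi.smul_apply, smul_eq_mul, map_mul]
    have hv : v.valuation K l ≠ 0 := (Valuation.ne_zero_iff _).2 hl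
    constructor
    · rintro ⟨h1, i, j, h2⟩
      exact ⟨h1, i, j, fun h3 => h2 (by rw [h3])⟩
    · rintro ⟨h1, i, j, h2⟩
      exact ⟨h1, i, j, fun h3 => h2 (mul_left_cancel₀ hv h3)⟩
  rw [show (v ∈ {v : HeightOneSpectrum (𝓞 K) | v ∉ T ∧ ∃ i j, v.valuation K ((l • x) i) ≠ v.valuation K ((l • x) j)}) =
    (v ∈ {v : HeightOneSpectrum (𝓞 K) | v ∉ T ∧ ∃ i j, v.valuation K (x i) ≠ v.valuation K (x j)}) from propext h]

lemma rad_mk_rep (T : Set (HeightOneSpectrum (𝓞 K))) (x : Fin 3 → K) (hx : x ≠ 0) :
    rad T (Projectivization.mk K x hx).rep = rad T x := by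
  obtain ⟨a, ha⟩ := Projectivization.exists_smul_eq_mk_rep K x hx
  rw [← ha]
  exact rad_smul T (a : K) a.ne_zero x

lemma countable_primes : Countable (HeightOneSpectrum (𝓞 K)) := by
  have h1 : Countable (Ideal (𝓞 K)) := by
    have h2 : (Set.univ : Set (Ideal (𝓞 K))).Countable := by
      have h3 : (Set.univ : Set (Ideal (𝓞 K))) = {⊥} ∪ ⋃ n : ℕ, {I : Ideal (𝓞 K) | Ideal.absNorm I = n + 1} := by
        ext I
        simp only [Set.mem_univ, Set.singleton_union, Set.mem_insert_iff, Set.mem_iUnion, Set.mem_ofPred_eq, true_iff]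
        by_cases hI : I = ⊥
        · exact Or.inl hI
        · right
          have h4 : Ideal.absNorm I ≠ 0 := fun h => hI (Ideal.absNorm_eq_zero_iff.1 h)
          exact ⟨Ideal.absNorm I - 1, by omega⟩
      rw [h3]
      refine (Set.countable_singleton _).union (Set.countable_iUnion fun n => ?_)
      exact (Ideal.finite_setOf_absNorm_eq (n + 1)).countable
    exact Set.countable_univ_iff.1 h2
  exact Function.Injective.countable (f := fun v : HeightOneSpectrum (𝓞 K) => v.asIdeal)
    (fun v w h => HeightOneSpectrum.ext h)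

lemma countable_field : Countable K := by
  have h := Algebra.IsAlgebraic.cardinalMk_le_max ℚ K
  rw [← Cardinal.mk_le_aleph0_iff]
  refine h.trans ?_
  simp

lemma countable_polys : Countable (Fin 3 → K[X]) := by
  have h1 : Countable K := countable_field
  have h2 : Countable K[X] := by
    rw [← Cardinal.mk_le_aleph0_iff]
    refine (Polynomial.cardinalMk_le_max).trans ?_
    simp
  infer_instance

end aux

/-- **Theorem.** Let `K` be a number field of degree `d`, `D ≥ 1`, `q ≥ 3` and `M > D / q`. There is `ν > 0` such that for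
every sequence `v ≥ 1` of exponent of convergence at most `τ ≥ 0` and every `ρ < 1` there is a set `E ⊂ ℝ` of Hausdorff
dimension at most `(2 / q - ν + τ) / (1 - ρ)` such that for each `α > 0` outside `E`, for all data `T`, `P` of height at
most `B` (any `B`) and all real `c`, for all but finitely many `i`: ALL points `x = P(t)`, `t ∈ K ∪ {∞}`, with nonzero
coordinates and `|exp(d rad_T(x)) - α v_i| ≤ v_i ^ ρ` satisfy `h(x) < M rad_T(x) + c`. The sequences `v_i = (i + 1) ^ a`
and `v_i = b ^ i` have exponent of convergence at most `1 / a` and `0`. -/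
theorem result :
    (∀ (K : Type) [Field K] [NumberField K] (D q : ℕ), 1 ≤ D → 3 ≤ q → ∀ M : ℝ, (D : ℝ) / q < M →
      ∃ ν : ℝ, 0 < ν ∧ ∀ (v : ℕ → ℝ) (τ ρ : ℝ), (∀ i, 1 ≤ v i) → 0 ≤ τ → ExpLe v τ → ρ < 1 →
      ∃ E : Set ℝ, dimH E ≤ ENNReal.ofReal ((2 / (q : ℝ) - ν + τ) / (1 - ρ)) ∧
        ∀ α : ℝ, 0 < α → α ∉ E →
          ∀ (B : ℝ) (T : Finset (HeightOneSpectrum (𝓞 K))) (P : Fin 3 → K[X]), Data D q B T P → ∀ c : ℝ,
            ∃ i₀ : ℕ, ∀ i : ℕ, i₀ ≤ i → ∀ t : Option K, (∀ j, coordinates D P t j ≠ 0) →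
              |Real.exp ((Module.finrank ℚ K : ℝ) * rad (T : Set _) (coordinates D P t)) - α * v i| ≤ (v i) ^ ρ →
              height (coordinates D P t) < M * rad (T : Set _) (coordinates D P t) + c) ∧
    (∀ a : ℝ, 0 < a → ExpLe (fun n : ℕ => ((n : ℝ) + 1) ^ a) (1 / a)) ∧
    (∀ b : ℝ, 1 < b → ExpLe (fun n : ℕ => b ^ n) 0) := by
  refine ⟨fun K _ _ D q hD hq M hM => ?_, fun κ hκ => Pool.Agent.Y854.GM.expLe_pow κ hκ,
    fun b hb => Pool.Agent.Y854.GM.expLe_geom b hb⟩
  obtain ⟨-, -, h2, -⟩ := AllThinSetsAtOnce.result K D q hD hq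
  obtain ⟨η, ν1, hη, hν1, h3⟩ := h2 M hM
  have hd : (0 : ℝ) < (Module.finrank ℚ K : ℝ) := by exact_mod_cast Module.finrank_pos
  set d : ℝ := (Module.finrank ℚ K : ℝ) with hddef
  have hq3 : (3 : ℝ) ≤ q := by exact_mod_cast hq
  have hqp : (0 : ℝ) < q := by linarith
  set ν : ℝ := min (ν1 / d) (1 / q) with hν
  have hν0 : 0 < ν := lt_min (by positivity) (by positivity)
  have hνa : ν ≤ ν1 / d := min_le_left _ _
  have hνb : ν ≤ 1 / q := min_le_right _ _
  have hs : 0 ≤ 2 / (q : ℝ) - ν := by
    have : 2 / (q : ℝ) = 1 / q + 1 / q := by ring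
    have h0 : 0 < 1 / (q : ℝ) := by positivity
    linarith
  refine ⟨ν, hν0, fun v τ ρ hv hτ hE hρ => ?_⟩
  -- fixed data and a fixed integer constant
  have key : ∀ z : Finset (HeightOneSpectrum (𝓞 K)) × (Fin 3 → K[X]) × ℤ, ∃ E : Set ℝ,
      dimH E ≤ ENNReal.ofReal ((2 / (q : ℝ) - ν + τ) / (1 - ρ)) ∧
      ((∃ B : ℝ, Data D q B z.1 z.2.1) → ∀ α : ℝ, 0 < α → α ∉ E →
        ∃ i₀ : ℕ, ∀ i : ℕ, i₀ ≤ i → ∀ t : Option K, (∀ j, coordinates D z.2.1 t j ≠ 0) →
          |Real.exp (d * rad (z.1 : Set _) (coordinates D z.2.1 t)) - α * v i| ≤ (v i) ^ ρ →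
          height (coordinates D z.2.1 t) < M * rad (z.1 : Set _) (coordinates D z.2.1 t) + z.2.2) := by
    rintro ⟨T, P, n⟩
    by_cases hdata : ∃ B : ℝ, Data D q B T P
    swap
    · exact ⟨∅, by simp, fun h => absurd h hdata⟩
    obtain ⟨B, hB⟩ := hdata
    obtain ⟨⟨C, hC⟩, -⟩ := h3 (n : ℝ)
    -- the data are of height at most `η log X` for `X ≥ X₁`
    set X₁ : ℝ := Real.exp (max B 0 / η) with hX1
    have hX1p : 0 < X₁ := Real.exp_pos _
    have hX11 : 1 ≤ X₁ := Real.one_le_exp (by positivity)
    have hdataX : ∀ X : ℝ, X₁ ≤ X → Data D q (η * Real.log X) T P := by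
      intro X hX
      have h4 : B ≤ η * Real.log X := by
        have h5 : max B 0 / η ≤ Real.log X := by
          rw [← Real.log_exp (max B 0 / η)]
          exact Real.log_le_log hX1p hX
        rw [div_le_iff₀ hη] at h5
        linarith [le_max_left B 0]
      exact { hB with primes := hB.primes.trans h4, height_le := hB.height_le.trans h4 }
    obtain ⟨E, hE1, hE2⟩ := Pool.Agent.Y854.GM.windows
      {Q : Projectivization K (Fin 3 → K) | ∃ (t : Option K) (hx : coordinates D P t ≠ 0),
        Q = Projectivization.mk K (coordinates D P t) hx ∧ (∀ i, coordinates D P t i ≠ 0) ∧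
        M * rad (T : Set _) (coordinates D P t) + n ≤ height (coordinates D P t)}
      (fun Q => Real.exp (d * rad (T : Set _) Q.rep)) (s := 2 / (q : ℝ) - ν) hv hτ hE hs hρ (by
        intro ε hε
        refine ⟨|C| * X₁ ^ |2 * d / q - ν1|, fun X hX => ?_⟩
        set Y : ℝ := X₁ * X ^ (1 / d) with hY
        have hXd : 1 ≤ X ^ (1 / d) := Real.one_le_rpow hX (by positivity)
        have hYX : X₁ ≤ Y := by
          rw [hY]
          nlinarith
        have hY1 : 1 ≤ Y := hX11.trans hYX
        have hXY : X ^ (1 / d) ≤ Y := by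
          rw [hY]
          nlinarith
        obtain ⟨h5, h6⟩ := hC Y hY1
        have hsub : {Q : Projectivization K (Fin 3 → K) | Q ∈ {Q : Projectivization K (Fin 3 → K) |
            ∃ (t : Option K) (hx : coordinates D P t ≠ 0),
            Q = Projectivization.mk K (coordinates D P t) hx ∧ (∀ i, coordinates D P t i ≠ 0) ∧
            M * rad (T : Set _) (coordinates D P t) + n ≤ height (coordinates D P t)} ∧
            Real.exp (d * rad (T : Set _) Q.rep) ≤ X} ⊆ Exceptions K D q η M n Y := by
          rintro Q ⟨⟨t, hx, hQ, hne, hle⟩, hXQ⟩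
          refine ⟨T, P, hdataX Y hYX, t, hx, hQ, hne, ?_, hle⟩
          rw [hQ, rad_mk_rep] at hXQ
          have h7 : d * rad (T : Set _) (coordinates D P t) ≤ Real.log X := by
            rw [← Real.log_exp (d * _)]
            exact Real.log_le_log (Real.exp_pos _) hXQ
          calc rad (T : Set _) (coordinates D P t) ≤ Real.log X / d := by
                rw [le_div_iff₀ hd]
                linarith
            _ = Real.log (X ^ (1 / d)) := by
                rw [Real.log_rpow (by linarith)]
                ring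
            _ ≤ Real.log Y := Real.log_le_log (by positivity) hXY
        refine ⟨h5.subset hsub, ?_⟩
        have hexp : (1 / d) * (2 * d / q - ν1) ≤ 2 / (q : ℝ) - ν + ε := by
          have h8 : (1 / d) * (2 * d / q - ν1) = 2 / q - ν1 / d := by
            field_simp
          rw [h8]
          linarith
        calc (({Q : Projectivization K (Fin 3 → K) | Q ∈ {Q : Projectivization K (Fin 3 → K) |
            ∃ (t : Option K) (hx : coordinates D P t ≠ 0),
            Q = Projectivization.mk K (coordinates D P t) hx ∧ (∀ i, coordinates D P t i ≠ 0) ∧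
            M * rad (T : Set _) (coordinates D P t) + n ≤ height (coordinates D P t)} ∧
            Real.exp (d * rad (T : Set _) Q.rep) ≤ X}.ncard : ℕ) : ℝ)
            ≤ ((Exceptions K D q η M n Y).ncard : ℝ) := by exact_mod_cast Set.ncard_le_ncard hsub h5
          _ ≤ C * Y ^ (2 * d / q - ν1) := h6
          _ ≤ |C| * Y ^ (2 * d / q - ν1) := mul_le_mul_of_nonneg_right (le_abs_self C) (by positivity)
          _ = |C| * (X₁ ^ (2 * d / q - ν1) * X ^ ((1 / d) * (2 * d / q - ν1))) := by
              rw [hY, Real.mul_rpow hX1p.le (by positivity), ← Real.rpow_mul (by linarith)]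
          _ ≤ |C| * (X₁ ^ |2 * d / q - ν1| * X ^ (2 / (q : ℝ) - ν + ε)) := by
              apply mul_le_mul_of_nonneg_left _ (abs_nonneg C)
              apply mul_le_mul (Real.rpow_le_rpow_of_exponent_le hX11 (le_abs_self _))
                (Real.rpow_le_rpow_of_exponent_le hX hexp) (by positivity) (by positivity)
          _ = _ := by ring)
    refine ⟨E, hE1, fun _ α hα hαE => ?_⟩
    obtain ⟨i₀, hi₀⟩ := hE2 α hα hαE
    refine ⟨i₀, fun i hi t hne hwin => ?_⟩
    by_contra hcon
    push Not at hcon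
    have hx : coordinates D P t ≠ 0 := fun h => hne 0 (by rw [h]; rfl)
    have h9 := hi₀ i hi (Projectivization.mk K (coordinates D P t) hx) ⟨t, hx, rfl, hne, hcon⟩
    simp only [rad_mk_rep] at h9
    exact absurd hwin (not_le.2 h9)
  have hc1 : Countable (HeightOneSpectrum (𝓞 K)) := countable_primes
  have hc2 : Countable (Fin 3 → K[X]) := countable_polys
  choose Es hEs1 hEs2 using key
  refine ⟨⋃ z, Es z, ?_, fun α hα hαE B T P hdata c => ?_⟩
  · rw [dimH_iUnion]
    exact iSup_le hEs1
  · obtain ⟨i₀, hi₀⟩ := hEs2 (T, P, ⌊c⌋) ⟨B, hdata⟩ α hα (fun hm => hαE (Set.mem_iUnion.2 ⟨_, hm⟩))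
    refine ⟨i₀, fun i hi t hne hwin => (hi₀ i hi t hne hwin).trans_le ?_⟩
    have := Int.floor_le c
    simp only
    linarith

end Pool.Agent.Results.MP_a793bb_nt.RadicalsInWindows
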