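import Pool.Agent.TH498.HF.T1
import Pool.Agent.W4.QD.NFabc
import Pool.Agent.W563.QD.RADK

/-!
# The abc conjecture over number fields: the points of a rational line, ordered by their radical

`K` is a number field of degree `n`, `α_0, α_1, α_2` are distinct elements of `K`. For rational `x` let
`P_x = ((x - α_0)(α_1 - α_2) : (x - α_1)(α_2 - α_0) : (x - α_2)(α_0 - α_1))`, a point over `K` of the
line `a + b + c = 0`. The points `P_x` are counted by their radical, with no restriction on the height.
-/

set_option autoImplicit false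

namespace Pool.Agent.Results.MP_a793bb_nt.RationalLinesAllHeights

open NumberField IsDedekindDomain

variable {K : Type} [Field K] [NumberField K]

/-- the point `((x - α_0)(α_1 - α_2) : (x - α_1)(α_2 - α_0) : (x - α_2)(α_0 - α_1))` of the line
`a + b + c = 0` -/
def pt (α : Fin 3 → K) (x : K) : Fin 3 → K :=
  ![(x - α 0) * (α 1 - α 2), (x - α 1) * (α 2 - α 0), (x - α 2) * (α 0 - α 1)]

/-- the absolute logarithmic height of a point of the projective plane over `K` -/
noncomputable def ht (P : Fin 3 → K) : ℝ :=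
  (∑ w : InfinitePlace K, (w.mult : ℝ) * Real.log (max (w (P 0)) (max (w (P 1)) (w (P 2)))) +
    ∑ᶠ v : HeightOneSpectrum (RingOfIntegers K),
      Real.log (max (FinitePlace.mk v (P 0)) (max (FinitePlace.mk v (P 1))
        (FinitePlace.mk v (P 2))))) / (Module.finrank ℚ K : ℝ)

/-- the radical: `1 / [K : ℚ]` times the sum of `log N(v)` over the primes `v` of `K` at which the
absolute values of the three coordinates are not all equal -/
noncomputable def rad (P : Fin 3 → K) : ℝ :=
  (∑ᶠ (v : HeightOneSpectrum (RingOfIntegers K))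
    (_ : ¬ (FinitePlace.mk v (P 0) = FinitePlace.mk v (P 1) ∧
      FinitePlace.mk v (P 1) = FinitePlace.mk v (P 2))),
      Real.log (Ideal.absNorm v.asIdeal : ℝ)) / (Module.finrank ℚ K : ℝ)

/-- the number of those among the `α_j` which have degree at least three over `ℚ` -/
noncomputable def big (α : Fin 3 → K) : ℕ :=
  (Finset.univ.filter fun j => 3 ≤ (minpoly ℚ (α j)).natDegree).card

/-- the rational numbers `x`, different from the `α_j`, with `rad(P_x) ≤ log R`; there is no
condition on the height of `x` -/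
def Points (α : Fin 3 → K) (R : ℝ) : Set ℚ :=
  {x : ℚ | (∀ j, (x : K) ≠ α j) ∧ rad (pt α (x : K)) ≤ Real.log R}

/-- those which violate `h(P_x) < κ rad(P_x) + c` -/
def Violating (α : Fin 3 → K) (κ c R : ℝ) : Set ℚ :=
  {x : ℚ | x ∈ Points α R ∧ κ * rad (pt α (x : K)) + c ≤ ht (pt α (x : K))}

open Finset Polynomial Pool.Agent.W4.QD Pool.Agent.W4.VC Pool.Agent.W4.CF in
/-- Let `K` be a number field of degree `n` and `α_0, α_1, α_2` distinct elements of `K`, `J ≥ 1` of
which have degree at least three over `ℚ`. There are `C` and `e` such that for `R ≥ 1` at most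
`C R ^ (n / J) (1 + log R) ^ e` rational numbers `x`, of whatever height, satisfy
`rad(P_x) ≤ log R`; in particular, for all `κ` and `c` at most so many of them violate
`h(P_x) < κ rad(P_x) + c`. -/
theorem result (K : Type) [Field K] [NumberField K] (α : Fin 3 → K) (hα : Function.Injective α)
    (hJ : 1 ≤ big α) :
    ∃ (C : ℝ) (e : ℕ), 0 < C ∧ ∀ R : ℝ, 1 ≤ R → (Points α R).Finite ∧
      ((Points α R).ncard : ℝ) ≤
        C * R ^ ((Module.finrank ℚ K : ℝ) / (big α : ℝ)) * (1 + Real.log R) ^ e ∧
      ∀ κ c : ℝ, (Violating α κ c R).Finite ∧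
        ((Violating α κ c R).ncard : ℝ) ≤
          C * R ^ ((Module.finrank ℚ K : ℝ) / (big α : ℝ)) * (1 + Real.log R) ^ e := by
  classical
  have hex := fun j => exists_int_poly (α j)
  choose f hf1 hf2 hf3 using hex
  obtain ⟨m, hm, hrad⟩ := Pool.Agent.W563.QD.t_RADK K α hα f (fun j => ⟨hf1 j, hf2 j⟩)
  set n : ℝ := (Module.finrank ℚ K : ℝ) with hn
  have hn0 : 0 < n := by
    rw [hn]
    exact_mod_cast (Module.finrank_pos : 0 < Module.finrank ℚ K)
  set J : Finset (Fin 3) := univ.filter fun j => 3 ≤ (minpoly ℚ (α j)).natDegree with hJd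
  have hJb : big α = J.card := rfl
  have hJ0 : (0 : ℝ) < (J.card : ℝ) := by
    rw [hJb] at hJ
    exact_mod_cast hJ
  rw [hJb]
  have hdeg : ∀ j : J, 3 ≤ (f j).natDegree := fun j => by
    rw [hf3]
    exact (mem_filter.mp j.2).2
  have hsqf : ∀ j, Sqf (f j) (f j).natDegree := fun j => ⟨(hf1 j).squarefree, le_rfl, by omega⟩
  have hTM := fun j : J => Pool.Agent.TH498.HF.TMsum (f j) (f j).natDegree (hsqf j) (hdeg j) m hm
  choose D e hD hDs using hTM
  set e0 : ℕ := ∑ j, e j with he0
  set E : ℝ := n / (J.card : ℝ) with hE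
  have hE0 : 0 < E := by rw [hE]; positivity
  have hDn : (0 : ℝ) ≤ ∑ j, D j := sum_nonneg fun j _ => (hD j).le
  refine ⟨(∑ j, D j) * (1 + E) ^ e0 + 1, e0, by positivity, ?_⟩
  intro R hR
  have hR0 : 0 < R := by linarith
  have hlogR : 0 ≤ Real.log R := Real.log_nonneg hR
  set T : ℝ := R ^ E with hT
  have hT1 : 1 ≤ T := Real.one_le_rpow hR hE0.le
  have hT0 : 0 < T := by linarith
  have hlogT : Real.log T = E * Real.log R := by rw [hT, Real.log_rpow hR0]
  have hmain : (Points α R).Finite ∧
      ((Points α R).ncard : ℝ) ≤ ((∑ j, D j) * (1 + E) ^ e0 + 1) * T * (1 + Real.log R) ^ e0 := by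
    refine Pool.Agent.TH498.HF.fin_of_bound _ _ fun s hs => ?_
    let G : ℚ → ℤ × ℤ := fun x => (x.num, (x.den : ℤ))
    have hinj : Function.Injective G := by
      intro x y h
      have h1 : x.num = y.num := congrArg Prod.fst h
      have h2 : (x.den : ℤ) = (y.den : ℤ) := congrArg Prod.snd h
      exact Rat.ext h1 (by exact_mod_cast h2)
    have hkey : ∀ p ∈ s.image G, IsCoprime p.1 p.2 ∧ ∃ j : J,
        hom (f j) (f j).natDegree p.1 p.2 ≠ 0 ∧
        (radp m (hom (f j) (f j).natDegree p.1 p.2).natAbs : ℝ) ≤ T := by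
      intro p hp
      obtain ⟨x, hx, rfl⟩ := mem_image.mp hp
      obtain ⟨hx1, hx2⟩ := hs hx
      have hcop : IsCoprime x.num (x.den : ℤ) := by
        rw [Int.isCoprime_iff_gcd_eq_one]
        exact x.reduced
      have hden : (x.den : ℤ) ≠ 0 := by exact_mod_cast x.den_nz
      have hxeq : (x : K) = ((x.num : ℤ) : K) / (((x.den : ℤ)) : K) := by
        push_cast
        exact (Rat.cast_def x)
      have hdK : ((x.den : ℤ) : K) ≠ 0 := by exact_mod_cast x.den_nz
      have hne : ∀ j, ((x.num : ℤ) : K) - ((x.den : ℤ) : K) * α j ≠ 0 := by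
        intro j h0
        apply hx1 j
        rw [hxeq, div_eq_iff hdK]
        linear_combination h0
      have a2 := hrad x.num (x.den : ℤ) hcop hden hne
      rw [← hxeq] at a2
      have a3 : (∑ j, ∑ p ∈ (hom (f j) (f j).natDegree x.num
          (x.den : ℤ)).natAbs.primeFactors.filter (fun p => ¬ p ∣ m), Real.log (p : ℝ)) ≤
          n * Real.log R := by
        refine a2.trans ?_
        exact mul_le_mul_of_nonneg_left hx2 hn0.le
      have hlr : ∀ j, Real.log (radp m (hom (f j) (f j).natDegree x.num (x.den : ℤ)).natAbs : ℝ) =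
          ∑ p ∈ (hom (f j) (f j).natDegree x.num (x.den : ℤ)).natAbs.primeFactors.filter
            (fun p => ¬ p ∣ m), Real.log (p : ℝ) := by
        intro j
        unfold radp
        rw [Nat.cast_prod, Real.log_prod]
        intro p hp
        exact_mod_cast (Nat.prime_of_mem_primeFactors (mem_filter.mp hp).1).ne_zero
      refine ⟨hcop, ?_⟩
      by_contra hcon
      push Not at hcon
      have hroot : ∀ j : J, hom (f j) (f j).natDegree x.num (x.den : ℤ) ≠ 0 := by
        intro j h0
        have hdQ : (((x.den : ℤ)) : ℚ) ≠ 0 := by exact_mod_cast x.den_nz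
        have h1 := Pool.Agent.TH498.KB.hom_eval (f j) (f j).natDegree le_rfl x.num (x.den : ℤ) hdQ
        rw [h0, Int.cast_zero] at h1
        have h2 : (((f j).map (Int.castRingHom ℚ))).IsRoot ((x.num : ℚ) / ((x.den : ℤ) : ℚ)) :=
          (mul_eq_zero.mp h1.symm).resolve_left (pow_ne_zero _ hdQ)
        have h3 : ((f j).map (Int.castRingHom ℚ)).natDegree = 1 :=
          natDegree_eq_of_degree_eq_some (degree_eq_one_of_irreducible_of_root (hf1 j) h2)
        rw [natDegree_map_eq_of_injective Int.cast_injective] at h3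
        have := hdeg j
        omega
      have h1 : ∀ j ∈ J, Real.log T <
          Real.log (radp m (hom (f j) (f j).natDegree x.num (x.den : ℤ)).natAbs : ℝ) :=
        fun j hj => Real.log_lt_log hT0 (hcon ⟨j, hj⟩ (hroot ⟨j, hj⟩))
      have h2 : ∑ _j ∈ J, Real.log T <
          ∑ j ∈ J, Real.log (radp m (hom (f j) (f j).natDegree x.num (x.den : ℤ)).natAbs : ℝ) :=
        sum_lt_sum_of_nonempty (card_pos.mp (by rw [hJb] at hJ; omega)) h1
      have h3 : ∑ j ∈ J, Real.log (radp m (hom (f j) (f j).natDegree x.num (x.den : ℤ)).natAbs : ℝ) ≤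
          ∑ j, Real.log (radp m (hom (f j) (f j).natDegree x.num (x.den : ℤ)).natAbs : ℝ) :=
        sum_le_sum_of_subset_of_nonneg (subset_univ J) fun j _ _ => Real.log_natCast_nonneg _
      have h4 : ∑ j, Real.log (radp m (hom (f j) (f j).natDegree x.num (x.den : ℤ)).natAbs : ℝ) ≤
          n * Real.log R := by
        rw [sum_congr rfl fun j _ => hlr j]
        exact a3
      rw [sum_const, nsmul_eq_mul, hlogT, hE] at h2
      have h5 : (J.card : ℝ) * (n / (J.card : ℝ) * Real.log R) = n * Real.log R := by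
        field_simp
      rw [h5] at h2
      linarith
    have hcover : s.image G ⊆ univ.biUnion (fun j : J => (s.image G).filter (fun p =>
        hom (f j) (f j).natDegree p.1 p.2 ≠ 0 ∧
        (radp m (hom (f j) (f j).natDegree p.1 p.2).natAbs : ℝ) ≤ T)) := by
      intro p hp
      obtain ⟨-, j, hj⟩ := hkey p hp
      exact mem_biUnion.mpr ⟨j, mem_univ j, mem_filter.mpr ⟨hp, hj⟩⟩
    have hlT : 1 + Real.log T ≤ (1 + E) * (1 + Real.log R) := by
      rw [hlogT]
      nlinarith
    have hlT1 : 1 ≤ 1 + Real.log T := by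
      have := Real.log_nonneg hT1
      linarith
    have hb : ∀ j : J, (((s.image G).filter (fun p =>
        hom (f j) (f j).natDegree p.1 p.2 ≠ 0 ∧
        (radp m (hom (f j) (f j).natDegree p.1 p.2).natAbs : ℝ) ≤ T)).card : ℝ) ≤
        D j * T * ((1 + E) * (1 + Real.log R)) ^ e0 := by
      intro j
      have h1 := hDs j T hT1 ((s.image G).filter (fun p =>
        hom (f j) (f j).natDegree p.1 p.2 ≠ 0 ∧
        (radp m (hom (f j) (f j).natDegree p.1 p.2).natAbs : ℝ) ≤ T)) (by
        intro p hp
        obtain ⟨h2, h3, h4⟩ := mem_filter.mp hp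
        exact ⟨(hkey p h2).1, h3, h4⟩)
      refine h1.trans ?_
      have h2 : (1 + Real.log T) ^ e j ≤ ((1 + E) * (1 + Real.log R)) ^ e0 := by
        calc (1 + Real.log T) ^ e j ≤ (1 + Real.log T) ^ e0 :=
              pow_le_pow_right₀ hlT1 (single_le_sum (f := e) (fun _ _ => Nat.zero_le _)
                (mem_univ j))
          _ ≤ _ := pow_le_pow_left₀ (by linarith) hlT _
      exact mul_le_mul_of_nonneg_left h2 (mul_nonneg (hD j).le hT0.le)
    rw [← card_image_of_injective s hinj]
    calc ((s.image G).card : ℝ) ≤ ∑ j : J, (((s.image G).filter (fun p =>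
        hom (f j) (f j).natDegree p.1 p.2 ≠ 0 ∧
        (radp m (hom (f j) (f j).natDegree p.1 p.2).natAbs : ℝ) ≤ T)).card : ℝ) := by
          exact_mod_cast (card_le_card hcover).trans card_biUnion_le
      _ ≤ ∑ j : J, D j * T * ((1 + E) * (1 + Real.log R)) ^ e0 := sum_le_sum fun j _ => hb j
      _ = (∑ j, D j) * (1 + E) ^ e0 * T * (1 + Real.log R) ^ e0 := by
          rw [← sum_mul, ← sum_mul, mul_pow]
          ring
      _ ≤ ((∑ j, D j) * (1 + E) ^ e0 + 1) * T * (1 + Real.log R) ^ e0 := by
          gcongr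
          linarith
  obtain ⟨h1, h2⟩ := hmain
  refine ⟨h1, h2, fun κ c => ?_⟩
  have hsub : Violating α κ c R ⊆ Points α R := fun x hx => hx.1
  refine ⟨h1.subset hsub, le_trans ?_ h2⟩
  exact_mod_cast Set.ncard_le_ncard hsub h1

end Pool.Agent.Results.MP_a793bb_nt.RationalLinesAllHeights
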